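import Pool.Agent.W982.TA.Stm2

/-!
# Min-max area triangulations: bits of the initial domain
-/

set_option autoImplicit false

namespace Pool.Agent.W982.TA

/-- partial sums of powers of two: size and bits -/
theorem s8_aux (f : ℕ → Bool) (n : ℕ) :
    (List.range n).foldl (fun acc k => if f k then acc + 2 ^ k else acc) 0 < 2 ^ n ∧
      ∀ k < n, ((List.range n).foldl (fun acc k => if f k then acc + 2 ^ k else acc) 0).testBit k
        = f k := by
  induction n with
  | zero => exact ⟨by simp, fun k hk => absurd hk (Nat.not_lt_zero k)⟩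
  | succ n ih =>
    obtain ⟨h1, h2⟩ := ih
    rw [List.range_succ, List.foldl_append]
    set A := (List.range n).foldl (fun acc k => if f k then acc + 2 ^ k else acc) 0 with hA
    simp only [List.foldl_cons, List.foldl_nil]
    have hp : 2 ^ (n + 1) = 2 ^ n + 2 ^ n := by rw [pow_succ]; ring
    by_cases hf : f n = true
    · rw [if_pos hf]
      refine ⟨by omega, fun k hk => ?_⟩
      rcases Nat.lt_succ_iff_lt_or_eq.mp hk with h | h
      · rw [Nat.add_comm, Nat.testBit_two_pow_add_gt h]
        exact h2 k h
      · subst h
        rw [Nat.add_comm, Nat.testBit_two_pow_add_eq, Nat.testBit_lt_two_pow h1, hf]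
        rfl
    · rw [if_neg hf]
      refine ⟨by omega, fun k hk => ?_⟩
      rcases Nat.lt_succ_iff_lt_or_eq.mp hk with h | h
      · exact h2 k h
      · subst h
        rw [Nat.testBit_lt_two_pow h1]
        simpa using hf

theorem s8 : TaskS8 := by
  intro P bd c k hk
  exact (s8_aux (fun j => allow P bd c.1 c.2.1 c.2.2 j) 48).2 k hk

end Pool.Agent.W982.TA
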